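import Mathlib

/-!
# The combinatorial core: a grid of points in quadratic zones

Phases `(t0 + i / ρ) ^ 2`, edges between columns, one turn around the circle.
-/

set_option autoImplicit false

namespace Pool.Agent.Helper71.PQ

private theorem uu (x : ℤˣ) : x * x = 1 := Int.units_mul_self x

private theorem zpow_two_mul' (κ : ℤˣ) (m : ℤ) : κ ^ (2 * m) = 1 := by
  rw [zpow_mul, zpow_two, uu, one_zpow]

private theorem zpow_neg' (κ : ℤˣ) (m : ℤ) : κ ^ (-m) = κ ^ m := by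
  rw [zpow_neg]
  exact inv_eq_of_mul_eq_one_right (uu _)

/-- The data of one grid. -/
structure Grid (ε e ρ t0 : ℝ) (k0 : ℤ) (κ s0 : ℤˣ) (c a b : ℤ → ℤˣ) : Prop where
  hε : 0 < ε
  hε1 : ε < 1
  he : 0 ≤ e
  he1 : e ≤ 1
  hk0 : 1 ≤ k0
  hρ : 0 < ρ
  hρs : Real.sqrt ((k0 : ℝ) + 1) * ρ ≤ ε / 8
  hc : ∀ k, k0 ≤ k → c (k + 1) = κ * c k
  hpos : ∀ i k l : ℤ, k0 ≤ l → 0 < t0 + i / ρ + k * ρ → (l : ℝ) + e - ε < (t0 + i / ρ + k * ρ) ^ 2 →
    (t0 + i / ρ + k * ρ) ^ 2 < (l : ℝ) + e → a i * b k = c l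
  hneg : ∀ i k l : ℤ, k0 ≤ l → t0 + i / ρ + k * ρ < 0 → (l : ℝ) + e - ε < (t0 + i / ρ + k * ρ) ^ 2 →
    (t0 + i / ρ + k * ρ) ^ 2 < (l : ℝ) + e → a i * b k = s0 * c l

namespace Grid

variable {ε e ρ t0 : ℝ} {k0 : ℤ} {κ s0 : ℤˣ} {c a b : ℤ → ℤˣ}

theorem cpow (G : Grid ε e ρ t0 k0 κ s0 c a b) (l : ℤ) (hl : k0 ≤ l) :
    c l = κ ^ (l - k0) * c k0 := by
  induction l, hl using Int.leInduction with
  | base => simp
  | succ n hn ih =>
    rw [G.hc n hn, ih, ← mul_assoc]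
    congr 1
    rw [show n + 1 - k0 = 1 + (n - k0) by ring, zpow_add, zpow_one]

/-- a real number `y` of the form `z + k ρ` in a half open interval of length `ρ` -/
private theorem exists_floor (z y ρ : ℝ) (hρ : 0 < ρ) :
    ∃ k : ℤ, z + k * ρ ≤ y ∧ y - ρ < z + k * ρ := by
  refine ⟨⌊(y - z) / ρ⌋, ?_, ?_⟩
  · have h := Int.floor_le ((y - z) / ρ)
    have h2 : (⌊(y - z) / ρ⌋ : ℝ) * ρ ≤ (y - z) / ρ * ρ := mul_le_mul_of_nonneg_right h hρ.le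
    rw [div_mul_cancel₀ _ hρ.ne'] at h2
    linarith
  · have h := Int.lt_floor_add_one ((y - z) / ρ)
    have h2 : (y - z) / ρ * ρ < ((⌊(y - z) / ρ⌋ : ℝ) + 1) * ρ := mul_lt_mul_of_pos_right h hρ
    rw [div_mul_cancel₀ _ hρ.ne'] at h2
    linarith

private theorem ystar (G : Grid ε e ρ t0 k0 κ s0 c a b) (δ : ℝ) (hδ : |δ| ≤ ε / 2) :
    ∃ y : ℝ, 1 / 2 ≤ y ∧ y ^ 2 = (k0 : ℝ) + e - (ε + δ) / 2 ∧ y * ρ ≤ ε / 8 ∧
      y ≤ Real.sqrt ((k0 : ℝ) + 1) := by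
  have h1 := abs_le.1 hδ
  have hk : (1 : ℝ) ≤ (k0 : ℝ) := by exact_mod_cast G.hk0
  have hε := G.hε
  have hε1 := G.hε1
  have he := G.he
  have he1 := G.he1
  have h2 : (1 / 4 : ℝ) ≤ (k0 : ℝ) + e - (ε + δ) / 2 := by linarith
  have h3 : Real.sqrt ((k0 : ℝ) + e - (ε + δ) / 2) ≤ Real.sqrt ((k0 : ℝ) + 1) := by
    apply Real.sqrt_le_sqrt
    linarith
  refine ⟨Real.sqrt ((k0 : ℝ) + e - (ε + δ) / 2), ?_, ?_, ?_, h3⟩
  · apply Real.le_sqrt_of_sq_le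
    linarith
  · rw [Real.sq_sqrt]
    linarith
  · calc Real.sqrt ((k0 : ℝ) + e - (ε + δ) / 2) * ρ ≤ Real.sqrt ((k0 : ℝ) + 1) * ρ :=
        mul_le_mul_of_nonneg_right h3 G.hρ.le
      _ ≤ ε / 8 := G.hρs

private theorem rho_small (G : Grid ε e ρ t0 k0 κ s0 c a b) : ρ ≤ ε / 8 := by
  have hk : (1 : ℝ) ≤ (k0 : ℝ) := by exact_mod_cast G.hk0
  have h1 : (1 : ℝ) ≤ Real.sqrt ((k0 : ℝ) + 1) := by
    apply Real.le_sqrt_of_sq_le
    linarith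
  have h2 := G.hρs
  have h3 := G.hρ
  nlinarith

/-- the edge lemma -/
theorem edge (G : Grid ε e ρ t0 k0 κ s0 c a b) (i i' m : ℤ) (hi : i < i')
    (hm : |(t0 + i' / ρ) ^ 2 - (t0 + i / ρ) ^ 2 - m| ≤ ε / 2) : a i * a i' = κ ^ m := by
  obtain ⟨δ, hδ⟩ : ∃ δ, δ = (t0 + i' / ρ) ^ 2 - (t0 + i / ρ) ^ 2 - m := ⟨_, rfl⟩
  rw [← hδ] at hm
  obtain ⟨ys, hy1, hy2, hy3, -⟩ := ystar G δ hm
  obtain ⟨k, hk1, hk2⟩ := exists_floor (t0 + i / ρ) ys ρ G.hρ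
  have hρ := G.hρ
  have hε := G.hε
  have hε1 := G.hε1
  have hρ8 := rho_small G
  have hd := abs_le.1 hm
  obtain ⟨y, hy⟩ : ∃ y, y = t0 + i / ρ + k * ρ := ⟨_, rfl⟩
  rw [← hy] at hk1 hk2
  have hy0 : 0 < y := by linarith
  have hyle : y ^ 2 ≤ ys ^ 2 := by nlinarith
  have hyge : ys ^ 2 - ε / 4 < y ^ 2 := by nlinarith
  have hp : (0 : ℝ) < (i' : ℝ) - i := by
    have : (i : ℝ) < (i' : ℝ) := by exact_mod_cast hi
    linarith
  obtain ⟨l', hl'⟩ : ∃ l' : ℤ, l' = k0 + m + 2 * k * (i' - i) := ⟨_, rfl⟩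
  obtain ⟨y', hy'⟩ : ∃ y', y' = t0 + i' / ρ + k * ρ := ⟨_, rfl⟩
  have hyy : y' = y + ((i' : ℝ) - i) / ρ := by
    rw [hy, hy']
    ring
  have hyy2 : y < y' := by
    rw [hyy]
    have : 0 < ((i' : ℝ) - i) / ρ := div_pos hp hρ
    linarith
  have hsq : y' ^ 2 = y ^ 2 + δ + (l' - k0) := by
    rw [hy', hy, hδ, hl']
    push_cast
    field_simp
    ring
  have hl0 : k0 ≤ l' := by
    have h1 : (k0 : ℝ) - 1 < (l' : ℝ) := by nlinarith
    have h2 : k0 - 1 < l' := by exact_mod_cast h1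
    omega
  have e1 : a i * b k = c k0 := by
    apply G.hpos i k k0 le_rfl
    · rw [← hy]; exact hy0
    · rw [← hy]; linarith
    · rw [← hy]; linarith
  have e2 : a i' * b k = c l' := by
    apply G.hpos i' k l' hl0
    · rw [← hy']; linarith
    · rw [← hy', hsq]; linarith
    · rw [← hy', hsq]; linarith
  have e3 : a i * a i' = (a i * b k) * (a i' * b k) := by
    rw [show (a i * b k) * (a i' * b k) = a i * a i' * (b k * b k) by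
      simp only [mul_comm, mul_left_comm]]
    rw [uu, mul_one]
  rw [e3, e1, e2, G.cpow l' hl0, hl', show k0 + m + 2 * k * (i' - i) - k0 = m + 2 * (k * (i' - i)) by ring,
    zpow_add, zpow_two_mul', mul_one, mul_comm (κ ^ m), ← mul_assoc, uu, one_mul]

/-- the edge lemma through the other side -/
theorem edge' (G : Grid ε e ρ t0 k0 κ s0 c a b) (i i' m : ℤ) (hi : i < i')
    (hm : |(t0 + i' / ρ) ^ 2 - (t0 + i / ρ) ^ 2 - m| ≤ ε / 2) : a i * a i' = s0 * κ ^ m := by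
  obtain ⟨δ, hδ⟩ : ∃ δ, δ = (t0 + i' / ρ) ^ 2 - (t0 + i / ρ) ^ 2 - m := ⟨_, rfl⟩
  rw [← hδ] at hm
  obtain ⟨ys, hy1, hy2, hy3, hy4⟩ := ystar G δ hm
  obtain ⟨k, hk1, hk2⟩ := exists_floor (t0 + i / ρ) (-ys + ρ) ρ G.hρ
  have hρ := G.hρ
  have hε := G.hε
  have hε1 := G.hε1
  have hρ8 := rho_small G
  have hd := abs_le.1 hm
  obtain ⟨y, hy⟩ : ∃ y, y = t0 + i / ρ + k * ρ := ⟨_, rfl⟩
  rw [← hy] at hk1 hk2
  have hy0 : y < 0 := by linarith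
  have hyle : y ^ 2 ≤ ys ^ 2 := by nlinarith
  have hyge : ys ^ 2 - ε / 4 < y ^ 2 := by
    have h1 : (ys - ρ) ^ 2 ≤ y ^ 2 := by nlinarith
    have h2 : 0 < ρ ^ 2 := pow_pos hρ 2
    nlinarith
  have hp : (1 : ℝ) ≤ (i' : ℝ) - i := by
    have : i + 1 ≤ i' := hi
    have : (i : ℝ) + 1 ≤ (i' : ℝ) := by exact_mod_cast this
    linarith
  obtain ⟨l', hl'⟩ : ∃ l' : ℤ, l' = k0 + m + 2 * k * (i' - i) := ⟨_, rfl⟩
  obtain ⟨y', hy'⟩ : ∃ y', y' = t0 + i' / ρ + k * ρ := ⟨_, rfl⟩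
  have hyy : y' = y + ((i' : ℝ) - i) / ρ := by
    rw [hy, hy']
    ring
  have hbig : 2 * ys + 1 ≤ ((i' : ℝ) - i) / ρ := by
    rw [le_div_iff₀ hρ]
    nlinarith
  have hyy2 : ys < y' := by
    rw [hyy]
    linarith
  have hsq : y' ^ 2 = y ^ 2 + δ + (l' - k0) := by
    rw [hy', hy, hδ, hl']
    push_cast
    field_simp
    ring
  have hl0 : k0 ≤ l' := by
    have h1 : (k0 : ℝ) - 1 < (l' : ℝ) := by nlinarith
    have h2 : k0 - 1 < l' := by exact_mod_cast h1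
    omega
  have e1 : a i * b k = s0 * c k0 := by
    apply G.hneg i k k0 le_rfl
    · rw [← hy]; exact hy0
    · rw [← hy]; linarith
    · rw [← hy]; linarith
  have e2 : a i' * b k = c l' := by
    apply G.hpos i' k l' hl0
    · rw [← hy']; linarith
    · rw [← hy', hsq]; linarith
    · rw [← hy', hsq]; linarith
  have e3 : a i * a i' = (a i * b k) * (a i' * b k) := by
    rw [show (a i * b k) * (a i' * b k) = a i * a i' * (b k * b k) by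
      simp only [mul_comm, mul_left_comm]]
    rw [uu, mul_one]
  rw [e3, e1, e2, G.cpow l' hl0, hl', show k0 + m + 2 * k * (i' - i) - k0 = m + 2 * (k * (i' - i)) by ring,
    zpow_add, zpow_two_mul', mul_one, mul_assoc s0, mul_comm (κ ^ m), ← mul_assoc (c k0), uu, one_mul]

/-- symmetric form of the edge lemma -/
theorem edgeS (G : Grid ε e ρ t0 k0 κ s0 c a b) (i i' m : ℤ) (hi : i ≠ i')
    (hm : |(t0 + i' / ρ) ^ 2 - (t0 + i / ρ) ^ 2 - m| ≤ ε / 2) : a i * a i' = κ ^ m := by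
  rcases lt_or_gt_of_ne hi with h | h
  · exact G.edge i i' m h hm
  · rw [mul_comm, ← zpow_neg']
    apply G.edge i' i (-m) h
    rw [← abs_neg]
    push_cast
    rw [show -((t0 + (i : ℝ) / ρ) ^ 2 - (t0 + (i' : ℝ) / ρ) ^ 2 - -(m : ℝ)) =
      (t0 + (i' : ℝ) / ρ) ^ 2 - (t0 + (i : ℝ) / ρ) ^ 2 - m by ring]
    exact hm

end Grid

/-- discrete intermediate values -/
theorem discrete (y : ℕ → ℝ) (L : ℕ) (d z : ℝ) (h0 : y 0 = 0)
    (hs : ∀ l, l < L → y (l + 1) - y l ≤ d) (hz : 0 ≤ z) (hL : z ≤ y L) (hd : 0 ≤ d) :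
    ∃ l, l ≤ L ∧ |y l - z| ≤ d := by
  classical
  have hex : ∃ l, z ≤ y l := ⟨L, hL⟩
  obtain ⟨l, hl⟩ : ∃ l, l = Nat.find hex := ⟨_, rfl⟩
  have h1 : z ≤ y l := by rw [hl]; exact Nat.find_spec hex
  have h2 : l ≤ L := by rw [hl]; exact Nat.find_min' hex hL
  refine ⟨l, h2, ?_⟩
  rcases Nat.eq_zero_or_pos l with h | h
  · subst h
    rw [← hl] at *
    rw [h0] at h1 ⊢
    have : z = 0 := le_antisymm h1 hz
    rw [this]
    simpa using hd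
  · have h3 : y (l - 1) < z := by
      by_contra hcon
      push Not at hcon
      have : Nat.find hex ≤ l - 1 := Nat.find_min' hex hcon
      omega
    have h4 := hs (l - 1) (by omega)
    rw [show l - 1 + 1 = l by omega] at h4
    rw [abs_le]
    constructor <;> linarith

namespace Grid

variable {ε e ρ t0 : ℝ} {k0 : ℤ} {κ s0 : ℤˣ} {c a b : ℤ → ℤˣ}

private theorem phase (hρ : 0 < ρ) (N : ℤ) (τ : ℝ) (hα : 1 / ρ ^ 2 = N + τ) (i : ℝ) :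
    (t0 + i / ρ) ^ 2 = t0 ^ 2 + (2 * t0 / ρ) * i + (N + τ) * i ^ 2 := by
  rw [← hα]
  field_simp
  ring

/-- one turn around the circle -/
theorem main (G : Grid ε e ρ t0 k0 κ s0 c a b) (N : ℤ) (τ : ℝ) (L B : ℕ)
    (hα : 1 / ρ ^ 2 = N + τ) (hτ : 0 < τ) (hB0 : 0 < B) (hB : 8 / ε ≤ B) (hL0 : 0 < L)
    (hL1 : 1 ≤ τ * (L : ℝ) ^ 2) (hL2 : τ * (B : ℝ) ^ 2 * (2 * L) ≤ ε / 8) :
    s0 = 1 ∧ a 1 = a 0 := by
  have hε := G.hε
  have hε1 := G.hε1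
  obtain ⟨g, bb, hb0, hbB, hg⟩ := Real.exists_int_int_abs_mul_sub_le (2 * t0 / ρ) hB0
  obtain ⟨η, hη⟩ : ∃ η, η = (bb : ℝ) * (2 * t0 / ρ) - g := ⟨_, rfl⟩
  rw [← hη] at hg
  have hBpos : (0 : ℝ) < (B : ℝ) := by exact_mod_cast hB0
  have hη8 : |η| ≤ ε / 8 := by
    refine hg.trans ?_
    rw [div_le_iff₀ (by positivity)]
    have h1 : 8 ≤ (B : ℝ) * ε := by
      rw [div_le_iff₀ hε] at hB
      exact hB
    nlinarith
  obtain ⟨σ, hσ, hσ2⟩ : ∃ σ : ℤ, (σ : ℝ) * η = |η| ∧ σ * σ = 1 := by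
    rcases le_total 0 η with h | h
    · exact ⟨1, by rw [abs_of_nonneg h]; simp, by norm_num⟩
    · exact ⟨-1, by rw [abs_of_nonpos h]; simp, by norm_num⟩
  have hσ2' : (σ : ℝ) * σ = 1 := by exact_mod_cast hσ2
  have hbb1 : (1 : ℝ) ≤ (bb : ℝ) := by exact_mod_cast hb0
  have hbbB : (bb : ℝ) ≤ (B : ℝ) := by exact_mod_cast hbB
  -- the chain
  obtain ⟨I, hI⟩ : ∃ I : ℕ → ℤ, ∀ l, I l = σ * bb * l := ⟨fun l => σ * bb * l, fun _ => rfl⟩
  obtain ⟨M, hM⟩ : ∃ M : ℕ → ℤ, ∀ l : ℕ, M l = N * bb ^ 2 * (l : ℤ) ^ 2 + σ * g * l :=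
    ⟨fun l : ℕ => N * bb ^ 2 * (l : ℤ) ^ 2 + σ * g * l, fun _ => rfl⟩
  obtain ⟨y, hy⟩ : ∃ y : ℕ → ℝ, ∀ l : ℕ, y l = τ * (bb : ℝ) ^ 2 * (l : ℝ) ^ 2 + |η| * l :=
    ⟨fun l : ℕ => τ * (bb : ℝ) ^ 2 * (l : ℝ) ^ 2 + |η| * l, fun _ => rfl⟩
  have hphase : ∀ l : ℕ, (t0 + (I l : ℝ) / ρ) ^ 2 = t0 ^ 2 + M l + y l := by
    intro l
    rw [phase G.hρ N τ hα, hI, hM, hy, ← hσ, hη]
    push_cast
    have e1 : ((σ : ℝ) * bb * l) ^ 2 = (bb : ℝ) ^ 2 * (l : ℝ) ^ 2 := by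
      rw [show ((σ : ℝ) * bb * l) ^ 2 = ((σ : ℝ) * σ) * ((bb : ℝ) ^ 2 * (l : ℝ) ^ 2) by ring, hσ2',
        one_mul]
    rw [e1]
    ring
  have hy0 : y 0 = 0 := by rw [hy]; simp
  have hI0 : I 0 = 0 := by rw [hI]; simp
  have hM0 : M 0 = 0 := by rw [hM]; simp
  have hstep : ∀ l, l < L → y (l + 1) - y l ≤ ε / 4 := by
    intro l hl
    rw [hy, hy]
    push_cast
    have hl' : (l : ℝ) + 1 ≤ (L : ℝ) := by exact_mod_cast hl
    have hl0 : (0 : ℝ) ≤ (l : ℝ) := Nat.cast_nonneg l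
    have h1 : τ * (bb : ℝ) ^ 2 * (2 * l + 1) ≤ τ * (B : ℝ) ^ 2 * (2 * L) := by
      have h2 : (bb : ℝ) ^ 2 ≤ (B : ℝ) ^ 2 := by nlinarith
      have h3 : τ * (bb : ℝ) ^ 2 ≤ τ * (B : ℝ) ^ 2 := mul_le_mul_of_nonneg_left h2 hτ.le
      exact mul_le_mul h3 (by linarith) (by linarith) (by positivity)
    have h4 : τ * (bb : ℝ) ^ 2 * ((l : ℝ) + 1) ^ 2 + |η| * ((l : ℝ) + 1) -
        (τ * (bb : ℝ) ^ 2 * (l : ℝ) ^ 2 + |η| * l) = τ * (bb : ℝ) ^ 2 * (2 * l + 1) + |η| := by ring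
    rw [h4]
    linarith
  have hmono : ∀ l, y l ≤ y (l + 1) := by
    intro l
    rw [hy, hy]
    push_cast
    have hl0 : (0 : ℝ) ≤ (l : ℝ) := Nat.cast_nonneg l
    have h4 : τ * (bb : ℝ) ^ 2 * ((l : ℝ) + 1) ^ 2 + |η| * ((l : ℝ) + 1) -
        (τ * (bb : ℝ) ^ 2 * (l : ℝ) ^ 2 + |η| * l) = τ * (bb : ℝ) ^ 2 * (2 * l + 1) + |η| := by ring
    have h5 : 0 ≤ τ * (bb : ℝ) ^ 2 * (2 * l + 1) + |η| := by positivity
    linarith
  have hyL : 1 ≤ y L := by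
    rw [hy]
    have h1 : τ * (L : ℝ) ^ 2 ≤ τ * (bb : ℝ) ^ 2 * (L : ℝ) ^ 2 := by
      have : (1 : ℝ) ≤ (bb : ℝ) ^ 2 := by nlinarith
      have h0 : 0 ≤ τ * (L : ℝ) ^ 2 := by positivity
      nlinarith
    have h2 : 0 ≤ |η| * (L : ℝ) := by positivity
    linarith
  have hne : ∀ l l' : ℕ, l ≠ l' → I l ≠ I l' := by
    intro l l' h hcon
    rw [hI, hI] at hcon
    have hσ0 : σ ≠ 0 := by
      rintro rfl
      simp at hσ2
    have h1 : σ * bb ≠ 0 := mul_ne_zero hσ0 (by omega)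
    have h2 := mul_left_cancel₀ h1 hcon
    exact h (by exact_mod_cast h2)
  -- values along the chain
  have hchain : ∀ l, l ≤ L → a (I l) = κ ^ (M l) * a 0 := by
    intro l
    induction l with
    | zero => intro _; rw [hI0, hM0]; simp
    | succ l ih =>
      intro hl
      have h1 := ih (by omega)
      have h2 := G.edgeS (I l) (I (l + 1)) (M (l + 1) - M l) (hne _ _ (by omega)) (by
        rw [hphase, hphase]
        push_cast
        have h3 := hstep l (by omega)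
        have h4 := hmono l
        rw [abs_le]
        constructor <;> linarith)
      have h5 : a (I (l + 1)) = a (I l) * (a (I l) * a (I (l + 1))) := by
        rw [← mul_assoc, uu, one_mul]
      rw [h5, h2, h1, mul_right_comm, ← zpow_add, show M l + (M (l + 1) - M l) = M (l + 1) by ring]
  -- the even side
  have hs0 : s0 = 1 := by
    have hcond : ∀ i i' : ℤ, ((i = I 0 ∧ i' = I 1) ∨ (i = I 1 ∧ i' = I 0)) →
        ∃ m : ℤ, |(t0 + i' / ρ) ^ 2 - (t0 + i / ρ) ^ 2 - m| ≤ ε / 2 := by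
      have h3 := hstep 0 hL0
      have h4 := hmono 0
      simp only [zero_add] at h3 h4
      rintro i i' (⟨rfl, rfl⟩ | ⟨rfl, rfl⟩)
      · refine ⟨M 1 - M 0, ?_⟩
        rw [hphase, hphase]
        push_cast
        rw [abs_le]
        constructor <;> linarith
      · refine ⟨M 0 - M 1, ?_⟩
        rw [hphase, hphase]
        push_cast
        rw [abs_le]
        constructor <;> linarith
    have key : ∀ i i' : ℤ, i < i' → ((i = I 0 ∧ i' = I 1) ∨ (i = I 1 ∧ i' = I 0)) → s0 = 1 := by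
      intro i i' hlt hor
      obtain ⟨m, hm⟩ := hcond i i' hor
      have e1 := G.edge i i' m hlt hm
      have e2 := G.edge' i i' m hlt hm
      rw [e1] at e2
      exact (mul_eq_right.1 e2.symm)
    rcases lt_or_gt_of_ne (hne 0 1 (by omega)) with h | h
    · exact key _ _ h (Or.inl ⟨rfl, rfl⟩)
    · exact key _ _ h (Or.inr ⟨rfl, rfl⟩)
  -- one turn
  have hκ : κ = 1 := by
    obtain ⟨l, hl, hlz⟩ := discrete y L (ε / 4) 1 hy0 hstep (by norm_num) hyL (by linarith)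
    have hl0 : l ≠ 0 := by
      rintro rfl
      rw [hy0] at hlz
      norm_num at hlz
      linarith
    have h1 := hchain l hl
    have hlz' := abs_le.1 hlz
    have h2 := G.edgeS (I 0) (I l) (M l + 1) (hne _ _ (Ne.symm hl0)) (by
      rw [hphase, hphase, hy0, hM0]
      push_cast
      rw [abs_le]
      constructor <;> linarith)
    rw [hI0, h1, mul_left_comm, uu, mul_one, zpow_add, zpow_one] at h2
    exact (mul_eq_left.1 h2.symm)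
  refine ⟨hs0, ?_⟩
  obtain ⟨z, hz⟩ : ∃ z, z = Int.fract ((N : ℝ) + τ + 2 * t0 / ρ) := ⟨_, rfl⟩
  have hz0 : 0 ≤ z := by rw [hz]; exact Int.fract_nonneg _
  have hz1 : z ≤ 1 := by rw [hz]; exact (Int.fract_lt_one _).le
  have hz2 : (N : ℝ) + τ + 2 * t0 / ρ = ⌊(N : ℝ) + τ + 2 * t0 / ρ⌋ + z := by
    rw [hz]
    exact (Int.floor_add_fract _).symm
  obtain ⟨l, hl, hlz⟩ := discrete y L (ε / 4) z hy0 hstep hz0 (hz1.trans hyL) (by linarith)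
  have h1 := hchain l hl
  rw [hκ, one_zpow, one_mul] at h1
  have hlz' := abs_le.1 hlz
  by_cases hcase : I l = 1
  · rw [← hcase, h1]
  · have h2 := G.edgeS 1 (I l) (M l - ⌊(N : ℝ) + τ + 2 * t0 / ρ⌋) (Ne.symm hcase) (by
      rw [hphase, phase G.hρ N τ hα]
      push_cast
      rw [abs_le]
      constructor <;> linarith)
    rw [hκ, one_zpow, h1] at h2
    exact (mul_eq_one_iff_eq_inv.1 h2).trans (inv_eq_of_mul_eq_one_right (uu _))

end Grid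

end Pool.Agent.Helper71.PQ
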