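import Mathlib
import Pool.Agent.Helper71.PQ.Limit

/-!
# Values near points, and the grid of products
-/

set_option autoImplicit false

open Filter Topology

namespace Pool.Agent.Helper71.PQ

private theorem uu (x : ℤˣ) : x * x = 1 := Int.units_mul_self x

namespace Hyp

variable {ε : ℝ} {s0 : ℤˣ} {F : ℕ → ℤ → ℤˣ} {R : ℕ → ℝ} {U : Ultrafilter ℕ} {e : ℝ}

/-- the value near a point of a zone and near its mirror image -/
theorem hv (H : Hyp ε s0 F R U) (he0 : 0 ≤ e)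
    (he : Tendsto (fun n => ((⌈2 * R n ^ 2⌉ : ℤ) : ℝ) - 2 * R n ^ 2) U (𝓝 e)) (k : ℤ) (hk : 1 ≤ k) :
    ∃ c : ℤˣ, ∀ t : ℝ, 0 < t → (k : ℝ) + e - ε < t ^ 2 → t ^ 2 < k + e →
      HasVal F R U t c ∧ HasVal F R U (-t) (s0 * c) := by
  have hε := H.hε
  obtain ⟨c, hc⟩ := H.zone_val he0 he k hk
  refine ⟨c, fun t ht0 ht1 ht2 => ?_⟩
  have hcont : ContinuousAt (fun x : ℝ => x ^ 2) t := by fun_prop
  have n1 : ∀ᶠ x in 𝓝 t, (k : ℝ) + e - ε < x ^ 2 := hcont.eventually_const_lt ht1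
  have n2 : ∀ᶠ x in 𝓝 t, x ^ 2 < (k : ℝ) + e := hcont.eventually_lt_const ht2
  have n3 : ∀ᶠ x in 𝓝 t, 0 < x := eventually_gt_nhds ht0
  obtain ⟨δ, hδ, hball⟩ := Metric.eventually_nhds_iff.1 ((n1.and n2).and n3)
  obtain ⟨η, hη⟩ : ∃ η, η = δ / 4 := ⟨_, rfl⟩
  have hη0 : 0 < η := by rw [hη]; linarith
  have ha := hball (y := t - η) (by rw [Real.dist_eq, abs_lt]; constructor <;> linarith)
  have hb := hball (y := t + 2 * η) (by rw [Real.dist_eq, abs_lt]; constructor <;> linarith)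
  have hz := hc (t - η) (t + 2 * η) ha.2.le hb.2.le ha.1.1 hb.1.2
  constructor
  · refine ⟨η, hη0, ?_⟩
    filter_upwards [hz, H.Rpos 0] with n h1 h2 N hN
    have h3 := abs_le.1 hN
    have h4 : 0 ≤ η * R n := by positivity
    apply h1 N <;> linarith
  · refine ⟨η, hη0, ?_⟩
    have hK : Tendsto (fun n => (((⌈2 * R n ^ 2⌉ : ℤ) : ℝ) - 2 * R n ^ 2) + k) U (𝓝 (e + k)) :=
      he.add_const _
    have hK2 := (H.hinv2 _ _ hK).eventually_lt_const hη0
    filter_upwards [hz, H.Rpos 0, H.partner he k (by omega) (t - η) (t + 2 * η) ha.2.le hb.1.2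
      (by linarith [ha.1.1]), hK2] with n h1 h2 h3 h4 N hN
    have h5 := abs_le.1 hN
    have h6 : 0 ≤ η * R n := by positivity
    have h7 : 0 ≤ (t - η) * R n := mul_nonneg ha.2.le h2.le
    have h8 : |(N : ℝ) - R n ^ 2| = R n ^ 2 - N := by
      rw [abs_of_nonpos (by linarith)]
      ring
    have h9 := h3 N (by rw [h8]; linarith) (by rw [h8]; linarith)
    have hJ : 0 ≤ ((⌈2 * R n ^ 2⌉ : ℤ) : ℝ) - 2 * R n ^ 2 := by
      have := Int.le_ceil (2 * R n ^ 2)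
      linarith
    have hk0 : (1 : ℝ) ≤ k := by exact_mod_cast hk
    rw [div_lt_iff₀ h2] at h4
    have h10 := h1 (⌈2 * R n ^ 2⌉ + k - N) (by push_cast; linarith) (by push_cast; linarith)
    rw [h10] at h9
    calc F n N = F n N * c * c := by rw [mul_assoc, uu, mul_one]
      _ = s0 * c := by rw [h9]

/-- the grid of products `(u + i) (v + k)` -/
theorem grid (H : Hyp ε s0 F R U) (u : ℕ → ℤ) (ρ : ℝ) (hρ : 0 < ρ)
    (hu : Tendsto (fun n => (u n : ℝ) / R n) U (𝓝 ρ)) :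
    ∃ (t0 : ℝ) (a b : ℤ → ℤˣ), (∀ i : ℤ, ∀ᶠ n in (U : Filter ℕ), F n (u n + i) = a i) ∧
      ∀ (i k : ℤ) (s : ℤˣ), HasVal F R U (t0 + i / ρ + k * ρ) s → a i * b k = s := by
  obtain ⟨v, hv⟩ : ∃ v : ℕ → ℤ, ∀ n, v n = ⌊R n ^ 2 / u n⌋ := ⟨fun n => ⌊R n ^ 2 / u n⌋, fun _ => rfl⟩
  have hupos : ∀ᶠ n in (U : Filter ℕ), 0 < (u n : ℝ) / R n := hu.eventually_const_lt hρ
  have hub : ∀ᶠ n in (U : Filter ℕ), (u n : ℝ) / R n < ρ + 1 := hu.eventually_lt_const (by linarith)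
  -- the second factor
  have hvt : Tendsto (fun n => (v n : ℝ) / R n) U (𝓝 (1 / ρ)) := by
    have h1 : Tendsto (fun n => 1 / ((u n : ℝ) / R n)) U (𝓝 (1 / ρ)) := by
      simpa [one_div] using hu.inv₀ hρ.ne'
    have h2 : Tendsto (fun n => 1 / ((u n : ℝ) / R n) - 1 / R n) U (𝓝 (1 / ρ)) := by
      simpa using h1.sub (H.hinv 1)
    refine tendsto_of_tendsto_of_tendsto_of_le_of_le' h2 h1 ?_ ?_
    · filter_upwards [hupos, H.Rpos 0] with n h3 h4
      have hun : 0 < (u n : ℝ) := by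
        have := mul_pos h3 h4
        rwa [div_mul_cancel₀ _ h4.ne'] at this
      have h5 := Int.sub_one_lt_floor (R n ^ 2 / u n)
      rw [hv, le_div_iff₀ h4]
      have h6 : (1 / ((u n : ℝ) / R n) - 1 / R n) * R n = R n ^ 2 / u n - 1 := by
        field_simp
      rw [h6]
      exact h5.le
    · filter_upwards [hupos, H.Rpos 0] with n h3 h4
      have hun : 0 < (u n : ℝ) := by
        have := mul_pos h3 h4
        rwa [div_mul_cancel₀ _ h4.ne'] at this
      have h5 := Int.floor_le (R n ^ 2 / u n)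
      rw [hv, div_le_iff₀ h4]
      have h6 : 1 / ((u n : ℝ) / R n) * R n = R n ^ 2 / u n := by
        field_simp
      rw [h6]
      exact h5
  -- the base point
  obtain ⟨t0, -, ht0⟩ := rlim U (fun n => ((u n : ℝ) * v n - R n ^ 2) / R n) (-(ρ + 1)) 0 (by
    filter_upwards [hupos, hub, H.Rpos 0] with n h3 h3' h4
    have hun : 0 < (u n : ℝ) := by
      have := mul_pos h3 h4
      rwa [div_mul_cancel₀ _ h4.ne'] at this
    have h5 := Int.floor_le (R n ^ 2 / u n)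
    have h6 := Int.sub_one_lt_floor (R n ^ 2 / u n)
    rw [← hv] at h5 h6
    have h7 : (v n : ℝ) * u n ≤ R n ^ 2 := by rwa [le_div_iff₀ hun] at h5
    have h8 : R n ^ 2 < ((v n : ℝ) + 1) * u n := by
      have : R n ^ 2 / u n < v n + 1 := by linarith
      rwa [div_lt_iff₀ hun] at this
    rw [div_lt_iff₀ h4] at h3'
    rw [Set.mem_Icc, le_div_iff₀ h4, div_le_iff₀ h4]
    constructor <;> nlinarith)
  have ha : ∀ i : ℤ, ∃ s, ∀ᶠ n in (U : Filter ℕ), F n (u n + i) = s := fun i => ulim U _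
  have hb : ∀ k : ℤ, ∃ s, ∀ᶠ n in (U : Filter ℕ), F n (v n + k) = s := fun k => ulim U _
  choose a ha using ha
  choose b hb using hb
  refine ⟨t0, a, b, ha, fun i k s ⟨η, hη, hs⟩ => ?_⟩
  have hi0 : ∀ᶠ n in (U : Filter ℕ), 0 < ((u n : ℝ) / R n + i / R n) := by
    have := hu.add (H.hinv i)
    rw [add_zero] at this
    exact this.eventually_const_lt hρ
  have hk0 : ∀ᶠ n in (U : Filter ℕ), 0 < ((v n : ℝ) / R n + k / R n) := by
    have := hvt.add (H.hinv k)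
    rw [add_zero] at this
    exact this.eventually_const_lt (by positivity)
  have hy : Tendsto (fun n => ((u n : ℝ) * v n - R n ^ 2) / R n + i * ((v n : ℝ) / R n) +
      k * ((u n : ℝ) / R n) + (i * k) / R n) U (𝓝 (t0 + i * (1 / ρ) + k * ρ + 0)) :=
    (((ht0.add (hvt.const_mul _)).add (hu.const_mul _)).add (H.hinv _))
  have hy2 : ∀ᶠ n in (U : Filter ℕ), |(((u n : ℝ) * v n - R n ^ 2) / R n + i * ((v n : ℝ) / R n) +
      k * ((u n : ℝ) / R n) + (i * k) / R n) - (t0 + i / ρ + k * ρ)| < η := by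
    have h1 := Metric.tendsto_nhds.1 hy η hη
    filter_upwards [h1] with n h2
    rw [Real.dist_eq] at h2
    convert h2 using 2
    ring
  have hall := (((((hs.and (ha i)).and (hb k)).and hi0).and hk0).and hy2).and (H.Rpos 0)
  obtain ⟨n, ⟨⟨⟨⟨⟨h1, h2⟩, h3⟩, h4⟩, h5⟩, h6⟩, h7⟩ := hall.exists
  have hne1 : u n + i ≠ 0 := by
    intro h0
    have : (u n : ℝ) + i = 0 := by exact_mod_cast h0
    rw [← add_div, this, zero_div] at h4
    exact lt_irrefl _ h4
  have hne2 : v n + k ≠ 0 := by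
    intro h0
    have : (v n : ℝ) + k = 0 := by exact_mod_cast h0
    rw [← add_div, this, zero_div] at h5
    exact lt_irrefl _ h5
  rw [← h2, ← h3, ← H.hmul n _ _ hne1 hne2]
  apply h1
  push_cast
  have h8 : (((u n : ℝ) + i) * (v n + k) - R n ^ 2 - (t0 + i / ρ + k * ρ) * R n) =
      ((((u n : ℝ) * v n - R n ^ 2) / R n + i * ((v n : ℝ) / R n) +
      k * ((u n : ℝ) / R n) + (i * k) / R n) - (t0 + i / ρ + k * ρ)) * R n := by
    field_simp
    ring
  rw [h8, abs_mul, abs_of_pos h7]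
  exact mul_le_mul_of_nonneg_right h6.le h7.le

end Hyp

end Pool.Agent.Helper71.PQ
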