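import Mathlib
import Pool.Agent.Helper71.PQ.GridL

/-!
# Periodicity of the zone constants, and the main theorem on sign changes
-/

set_option autoImplicit false

open Filter Topology

namespace Pool.Agent.Helper71.PQ

private theorem uu (x : ℤˣ) : x * x = 1 := Int.units_mul_self x

private theorem openc (g : ℝ × ℝ → ℝ) (p : ℝ × ℝ) (hg : ContinuousAt g p) (x y : ℝ) (h0 : 0 < g p)
    (h1 : x < g p ^ 2) (h2 : g p ^ 2 < y) :
    ∀ᶠ p' in 𝓝 p, 0 < g p' ∧ x < g p' ^ 2 ∧ g p' ^ 2 < y :=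
  (hg.eventually_const_lt h0).and
    (((hg.pow 2).eventually_const_lt h1).and ((hg.pow 2).eventually_lt_const h2))

namespace Hyp

variable {ε : ℝ} {s0 : ℤˣ} {F : ℕ → ℤ → ℤˣ} {R : ℕ → ℝ} {U : Ultrafilter ℕ} {e : ℝ}

/-- zone constants two steps apart agree -/
theorem period (H : Hyp ε s0 F R U) (he0 : 0 ≤ e) (c : ℤ → ℤˣ)
    (hc : ∀ k : ℤ, 1 ≤ k → ∀ t : ℝ, 0 < t → (k : ℝ) + e - ε < t ^ 2 → t ^ 2 < k + e →
      HasVal F R U t (c k) ∧ HasVal F R U (-t) (s0 * c k)) (k : ℤ) (hk1 : 1 ≤ k)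
    (hk : 1 / ε ≤ (k : ℝ)) : c (k + 2) = c k := by
  have hε := H.hε
  have hε1 := H.hε1
  have hk1' : (1 : ℝ) ≤ k := by exact_mod_cast hk1
  obtain ⟨A, hA⟩ : ∃ A, A = Real.sqrt (k + e - ε / 2) := ⟨_, rfl⟩
  obtain ⟨B, hB⟩ : ∃ B, B = Real.sqrt (k + 2 + e - ε / 2) := ⟨_, rfl⟩
  have hA2 : A ^ 2 = k + e - ε / 2 := by rw [hA, Real.sq_sqrt]; linarith
  have hB2 : B ^ 2 = k + 2 + e - ε / 2 := by rw [hB, Real.sq_sqrt]; linarith
  have hA0 : 0 < A := by rw [hA]; apply Real.sqrt_pos.2; linarith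
  have hB0 : 0 < B := by rw [hB]; apply Real.sqrt_pos.2; linarith
  have hAB : A < B := by nlinarith
  have hS : 0 < A + B := by linarith
  have hinv : 1 / (A + B) = (B - A) / 2 := by
    rw [div_eq_iff hS.ne']
    nlinarith
  -- the square of the middle point
  have hmid : ((A + B) / 2) ^ 2 = k + 1 + e - ε / 2 - ((B - A) / 2) ^ 2 := by nlinarith
  have hgap : ((B - A) / 2) ^ 2 < ε / 2 := by
    rw [← hinv, div_pow, one_pow, div_lt_iff₀ (by positivity)]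
    rw [div_le_iff₀ hε] at hk
    have h1 : 4 * A ^ 2 ≤ (A + B) ^ 2 := by nlinarith
    rw [hA2] at h1
    nlinarith
  have hgap0 : 0 < ((B - A) / 2) ^ 2 := by
    have : 0 < (B - A) / 2 := by linarith
    positivity
  have hne : (A + B, A).1 ≠ 0 := hS.ne'
  -- open conditions
  have f1 : ContinuousAt (fun p : ℝ × ℝ => p.2) (A + B, A) := by fun_prop
  have f2 : ContinuousAt (fun p : ℝ × ℝ => p.2 + 1 / p.1) (A + B, A) := by
    apply ContinuousAt.add f1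
    exact ContinuousAt.div continuousAt_const continuousAt_fst hne
  have f3 : ContinuousAt (fun p : ℝ × ℝ => p.1 - p.2) (A + B, A) := by fun_prop
  have f4 : ContinuousAt (fun p : ℝ × ℝ => p.1 - p.2 - 1 / p.1) (A + B, A) := by
    apply ContinuousAt.sub f3
    exact ContinuousAt.div continuousAt_const continuousAt_fst hne
  have w2 : A + 1 / (A + B) = (A + B) / 2 := by rw [hinv]; ring
  have w3 : A + B - A = B := by ring
  have w4 : A + B - A - 1 / (A + B) = (A + B) / 2 := by rw [hinv]; ring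
  have g1 : ∀ᶠ p : ℝ × ℝ in 𝓝 (A + B, A), 0 < p.2 ∧ (k : ℝ) + e - ε < p.2 ^ 2 ∧
      p.2 ^ 2 < (k : ℝ) + e := by
    refine openc _ _ f1 _ _ hA0 ?_ ?_
    · show _ < A ^ 2
      rw [hA2]; linarith
    · show A ^ 2 < _
      rw [hA2]; linarith
  have g2 : ∀ᶠ p : ℝ × ℝ in 𝓝 (A + B, A), 0 < p.2 + 1 / p.1 ∧
      (k : ℝ) + 1 + e - ε < (p.2 + 1 / p.1) ^ 2 ∧ (p.2 + 1 / p.1) ^ 2 < (k : ℝ) + 1 + e := by
    refine openc _ _ f2 _ _ ?_ ?_ ?_
    · show 0 < A + 1 / (A + B)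
      rw [w2]; linarith
    · show _ < (A + 1 / (A + B)) ^ 2
      rw [w2, hmid]; linarith
    · show (A + 1 / (A + B)) ^ 2 < _
      rw [w2, hmid]; linarith
  have g3 : ∀ᶠ p : ℝ × ℝ in 𝓝 (A + B, A), 0 < p.1 - p.2 ∧
      (k : ℝ) + 2 + e - ε < (p.1 - p.2) ^ 2 ∧ (p.1 - p.2) ^ 2 < (k : ℝ) + 2 + e := by
    refine openc _ _ f3 _ _ ?_ ?_ ?_
    · show 0 < A + B - A
      rw [w3]; exact hB0
    · show _ < (A + B - A) ^ 2
      rw [w3, hB2]; linarith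
    · show (A + B - A) ^ 2 < _
      rw [w3, hB2]; linarith
  have g4 : ∀ᶠ p : ℝ × ℝ in 𝓝 (A + B, A), 0 < p.1 - p.2 - 1 / p.1 ∧
      (k : ℝ) + 1 + e - ε < (p.1 - p.2 - 1 / p.1) ^ 2 ∧
      (p.1 - p.2 - 1 / p.1) ^ 2 < (k : ℝ) + 1 + e := by
    refine openc _ _ f4 _ _ ?_ ?_ ?_
    · show 0 < A + B - A - 1 / (A + B)
      rw [w4]; linarith
    · show _ < (A + B - A - 1 / (A + B)) ^ 2
      rw [w4, hmid]; linarith
    · show (A + B - A - 1 / (A + B)) ^ 2 < _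
      rw [w4, hmid]; linarith
  have g := ((g1.and g2).and (g3.and g4)).curry_nhds
  obtain ⟨δ, hδ, hball⟩ := Metric.eventually_nhds_iff.1 g
  -- an irrational square
  obtain ⟨z, hzirr, hz1, hz2⟩ := exists_irrational_btwn
    (show (A + B) ^ 2 < (A + B + δ / 2) ^ 2 from pow_lt_pow_left₀ (by linarith) hS.le (by norm_num))
  obtain ⟨ρ, hρd⟩ : ∃ ρ, ρ = Real.sqrt z := ⟨_, rfl⟩
  have hz0 : 0 ≤ z := (sq_nonneg (A + B)).trans hz1.le
  have hρ2 : ρ ^ 2 = z := by rw [hρd, Real.sq_sqrt hz0]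
  have hρ0 : 0 ≤ ρ := by rw [hρd]; exact Real.sqrt_nonneg _
  have hρ1 : A + B < ρ := by rw [hρd]; exact Real.lt_sqrt_of_sq_lt hz1
  have hρ3 : ρ < A + B + δ / 2 := by rw [hρd, Real.sqrt_lt' (by linarith)]; exact hz2
  have hρpos : 0 < ρ := by linarith
  have hg := hball (y := ρ) (by rw [Real.dist_eq, abs_lt]; constructor <;> linarith)
  obtain ⟨δ', hδ', hball'⟩ := Metric.eventually_nhds_iff.1 hg
  -- the grid
  have hu : Tendsto (fun n => ((⌊ρ * R n⌋ : ℤ) : ℝ) / R n) U (𝓝 ρ) := by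
    have h2 : Tendsto (fun n => ρ - 1 / R n) U (𝓝 ρ) := by
      simpa using (H.hinv 1).const_sub ρ
    refine tendsto_of_tendsto_of_tendsto_of_le_of_le' h2 tendsto_const_nhds ?_ ?_
    · filter_upwards [H.Rpos 0] with n h4
      rw [le_div_iff₀ h4]
      have h5 := Int.sub_one_lt_floor (ρ * R n)
      have h6 : (ρ - 1 / R n) * R n = ρ * R n - 1 := by field_simp
      rw [h6]
      exact h5.le
    · filter_upwards [H.Rpos 0] with n h4
      rw [div_le_iff₀ h4]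
      exact Int.floor_le _
  obtain ⟨t0, a, b, -, hab⟩ := H.grid _ ρ hρpos hu
  have hdense : Dense (AddSubgroup.closure {ρ, 1 / ρ} : Set ℝ) := by
    rw [dense_addSubgroupClosure_pair_iff]
    have : ρ / (1 / ρ) = z := by
      rw [← hρ2]
      field_simp
    rw [this]
    exact hzirr
  obtain ⟨y, hy, hyd⟩ := hdense.exists_dist_lt (A - t0) hδ'
  rw [SetLike.mem_coe, AddSubgroup.mem_closure_pair] at hy
  obtain ⟨m, i, hmi⟩ := hy
  obtain ⟨t, ht⟩ : ∃ t, t = t0 + i / ρ + m * ρ := ⟨_, rfl⟩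
  have hty : t = t0 + y := by
    rw [ht, ← hmi, zsmul_eq_mul, zsmul_eq_mul]
    ring
  have hcond := hball' (y := t) (by
    rw [Real.dist_eq] at hyd ⊢
    rw [hty, ← abs_neg]
    rw [show -(t0 + y - A) = A - t0 - y by ring]
    exact hyd)
  simp only at hcond
  obtain ⟨⟨⟨p1, p2, p3⟩, ⟨q1, q2, q3⟩⟩, ⟨⟨r1, r2, r3⟩, ⟨s1, s2, s3⟩⟩⟩ := hcond
  have e1 : a i * b m = c k := by
    apply hab i m (c k)
    rw [← ht]
    exact (hc k hk1 t p1 p2 p3).1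
  have e2 : a (i + 1) * b m = c (k + 1) := by
    apply hab (i + 1) m (c (k + 1))
    rw [show t0 + ((i + 1 : ℤ) : ℝ) / ρ + m * ρ = t + 1 / ρ by rw [ht]; push_cast; ring]
    exact (hc (k + 1) (by omega) (t + 1 / ρ) q1 (by push_cast; linarith) (by push_cast; linarith)).1
  have e3 : a i * b (m - 1) = s0 * c (k + 2) := by
    apply hab i (m - 1) (s0 * c (k + 2))
    rw [show t0 + (i : ℝ) / ρ + ((m - 1 : ℤ) : ℝ) * ρ = -(ρ - t) by rw [ht]; push_cast; ring]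
    exact (hc (k + 2) (by omega) (ρ - t) r1 (by push_cast; linarith) (by push_cast; linarith)).2
  have e4 : a (i + 1) * b (m - 1) = s0 * c (k + 1) := by
    apply hab (i + 1) (m - 1) (s0 * c (k + 1))
    rw [show t0 + ((i + 1 : ℤ) : ℝ) / ρ + ((m - 1 : ℤ) : ℝ) * ρ = -(ρ - t - 1 / ρ) by
      rw [ht]; push_cast; ring]
    exact (hc (k + 1) (by omega) (ρ - t - 1 / ρ) s1 (by push_cast; linarith)
      (by push_cast; linarith)).2
  have h5 : b (m - 1) = s0 * b m := by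
    rw [← e2, mul_left_comm] at e4
    exact mul_left_cancel e4
  rw [h5, mul_left_comm] at e3
  rw [← e1]
  exact (mul_left_cancel e3).symm

end Hyp

/-- The scale `ρ` on which all limit objects are constant. -/
theorem exists_scale (ε : ℝ) (hε : 0 < ε) (hε1 : ε < 1) : ∃ ρ : ℝ, 0 < ρ ∧
    ∀ (s0 : ℤˣ) (F : ℕ → ℤ → ℤˣ) (R : ℕ → ℝ) (U : Ultrafilter ℕ), Hyp ε s0 F R U →
      s0 = 1 ∧ ∀ u : ℕ → ℤ, Tendsto (fun n => (u n : ℝ) / R n) U (𝓝 ρ) →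
        ∀ᶠ n in (U : Filter ℕ), F n (u n + 1) = F n (u n) := by
  obtain ⟨k0, hk0⟩ : ∃ k0 : ℤ, k0 = ⌈1 / ε⌉ + 1 := ⟨_, rfl⟩
  have hk0r : 1 / ε ≤ (k0 : ℝ) := by
    rw [hk0]
    push_cast
    linarith [Int.le_ceil (1 / ε)]
  have hk01 : 1 ≤ k0 := by
    rw [hk0]
    have : 0 ≤ ⌈1 / ε⌉ := Int.ceil_nonneg (by positivity)
    omega
  have hk01' : (1 : ℝ) ≤ k0 := by exact_mod_cast hk01
  obtain ⟨B, hB⟩ : ∃ B : ℕ, B = ⌈8 / ε⌉₊ + 1 := ⟨_, rfl⟩
  have hB1 : 8 / ε ≤ (B : ℝ) := by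
    rw [hB]
    push_cast
    linarith [Nat.le_ceil (8 / ε)]
  have hB0 : 0 < B := by omega
  obtain ⟨L, hL⟩ : ∃ L : ℕ, L = ⌈32 * (B : ℝ) ^ 2 / ε⌉₊ + 1 := ⟨_, rfl⟩
  have hL1 : 32 * (B : ℝ) ^ 2 / ε ≤ (L : ℝ) := by
    rw [hL]
    push_cast
    linarith [Nat.le_ceil (32 * (B : ℝ) ^ 2 / ε)]
  have hL0 : 0 < L := by omega
  have hL0' : (0 : ℝ) < L := by exact_mod_cast hL0
  obtain ⟨τ, hτ⟩ : ∃ τ : ℝ, τ = 2 / (L : ℝ) ^ 2 := ⟨_, rfl⟩
  have hτ0 : 0 < τ := by rw [hτ]; positivity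
  have hτL : 1 ≤ τ * (L : ℝ) ^ 2 := by
    rw [hτ, div_mul_cancel₀ _ (by positivity)]
    norm_num
  have hτB : τ * (B : ℝ) ^ 2 * (2 * L) ≤ ε / 8 := by
    have h1 : τ * (B : ℝ) ^ 2 * (2 * L) = 4 * (B : ℝ) ^ 2 / L := by
      rw [hτ]
      field_simp
      ring
    rw [h1, div_le_iff₀ hL0']
    rw [div_le_iff₀ hε] at hL1
    linarith
  obtain ⟨N, hN⟩ : ∃ N : ℤ, N = ⌈64 * ((k0 : ℝ) + 1) / ε ^ 2⌉ := ⟨_, rfl⟩
  have hN1 : 64 * ((k0 : ℝ) + 1) / ε ^ 2 ≤ (N : ℝ) := by rw [hN]; exact Int.le_ceil _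
  have hN0 : 0 < (N : ℝ) + τ := by
    have : 0 ≤ 64 * ((k0 : ℝ) + 1) / ε ^ 2 := by positivity
    linarith
  obtain ⟨ρ, hρ⟩ : ∃ ρ : ℝ, ρ = 1 / Real.sqrt ((N : ℝ) + τ) := ⟨_, rfl⟩
  have hsq0 : 0 < Real.sqrt ((N : ℝ) + τ) := Real.sqrt_pos.2 hN0
  have hρ0 : 0 < ρ := by rw [hρ]; positivity
  have hα : 1 / ρ ^ 2 = N + τ := by
    rw [hρ, div_pow, one_pow, one_div_one_div, Real.sq_sqrt hN0.le]
  have hρs : Real.sqrt ((k0 : ℝ) + 1) * ρ ≤ ε / 8 := by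
    apply le_of_sq_le_sq _ (by positivity)
    rw [mul_pow, Real.sq_sqrt (by linarith)]
    have h1 : ρ ^ 2 = 1 / (N + τ) := by rw [← hα, one_div_one_div]
    rw [h1, mul_one_div, div_le_iff₀ hN0]
    rw [div_le_iff₀ (by positivity)] at hN1
    have h2 : 0 < τ * ε ^ 2 := by positivity
    nlinarith
  refine ⟨ρ, hρ0, fun s0 F R U H => ?_⟩
  obtain ⟨e, ⟨he0, he1⟩, he⟩ := rlim U (fun n => ((⌈2 * R n ^ 2⌉ : ℤ) : ℝ) - 2 * R n ^ 2) 0 1
    (Eventually.of_forall fun n => by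
      have h1 := Int.le_ceil (2 * R n ^ 2)
      have h2 := Int.ceil_lt_add_one (2 * R n ^ 2)
      constructor <;> linarith)
  have hcex : ∀ k : ℤ, ∃ c : ℤˣ, 1 ≤ k → ∀ t : ℝ, 0 < t → (k : ℝ) + e - ε < t ^ 2 → t ^ 2 < k + e →
      HasVal F R U t c ∧ HasVal F R U (-t) (s0 * c) := by
    intro k
    by_cases hk : 1 ≤ k
    · obtain ⟨c, hc⟩ := H.hv he0 he k hk
      exact ⟨c, fun _ => hc⟩
    · exact ⟨1, fun h => absurd h hk⟩
  choose c hc using hcex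
  have hper : ∀ k, k0 ≤ k → c (k + 2) = c k := by
    intro k hk
    apply H.period he0 c hc k (by omega)
    have : (k0 : ℝ) ≤ k := by exact_mod_cast hk
    linarith
  obtain ⟨κ, hκ⟩ : ∃ κ, κ = c k0 * c (k0 + 1) := ⟨_, rfl⟩
  have hcκ : ∀ k, k0 ≤ k → c (k + 1) = κ * c k := by
    intro k hk
    induction k, hk using Int.leInduction with
    | base => rw [hκ, mul_comm (c k0), mul_assoc, uu, mul_one]
    | succ k hk ih =>
      rw [show k + 1 + 1 = k + 2 by ring, hper k hk, ih, ← mul_assoc, uu, one_mul]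
  have key : ∀ u : ℕ → ℤ, Tendsto (fun n => (u n : ℝ) / R n) U (𝓝 ρ) →
      s0 = 1 ∧ ∀ᶠ n in (U : Filter ℕ), F n (u n + 1) = F n (u n) := by
    intro u hu
    obtain ⟨t0, a, b, ha, hab⟩ := H.grid u ρ hρ0 hu
    have G : Grid ε e ρ t0 k0 κ s0 c a b :=
      { hε := hε
        hε1 := hε1
        he := he0
        he1 := he1
        hk0 := hk01
        hρ := hρ0
        hρs := hρs
        hc := hcκ
        hpos := fun i k l hl h1 h2 h3 => hab i k _ (hc l (by omega) _ h1 h2 h3).1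
        hneg := fun i k l hl h1 h2 h3 => by
          apply hab i k
          have h4 := (hc l (by omega) (-(t0 + i / ρ + k * ρ)) (by linarith)
            (by rw [neg_sq]; exact h2) (by rw [neg_sq]; exact h3)).2
          rwa [neg_neg] at h4 }
    obtain ⟨m1, m2⟩ := G.main N τ L B hα hτ0 hB0 hB1 hL0 hτL hτB
    refine ⟨m1, ?_⟩
    filter_upwards [ha 0, ha 1] with n h0 h1
    rw [h1, m2, ← h0, add_zero]
  have hu : Tendsto (fun n => ((⌊ρ * R n⌋ : ℤ) : ℝ) / R n) U (𝓝 ρ) := by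
    have h2 : Tendsto (fun n => ρ - 1 / R n) U (𝓝 ρ) := by
      simpa using (H.hinv 1).const_sub ρ
    refine tendsto_of_tendsto_of_tendsto_of_le_of_le' h2 tendsto_const_nhds ?_ ?_
    · filter_upwards [H.Rpos 0] with n h4
      rw [le_div_iff₀ h4]
      have h5 := Int.sub_one_lt_floor (ρ * R n)
      have h6 : (ρ - 1 / R n) * R n = ρ * R n - 1 := by field_simp
      rw [h6]
      exact h5.le
    · filter_upwards [H.Rpos 0] with n h4
      rw [div_le_iff₀ h4]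
      exact Int.floor_le _
  exact ⟨(key _ hu).1, fun u hu => (key u hu).2⟩

end Pool.Agent.Helper71.PQ
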