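import Mathlib
import Pool.Agent.Helper71.PQ.Main

/-!
# Both signs in every window `(x, x + C √x]`, `C > 1`
-/

set_option autoImplicit false

open Filter Topology

namespace Pool.Agent.Helper71.PQ

private theorem tendsto_R (x : ℕ → ℝ) (hx : ∀ n : ℕ, (n : ℝ) ≤ x n) :
    Tendsto (fun n => Real.sqrt (Real.sqrt (x n))) (hyperfilter ℕ : Filter ℕ) atTop := by
  have h1 : Tendsto x atTop atTop := tendsto_atTop_mono hx tendsto_natCast_atTop_atTop
  exact ((Real.tendsto_sqrt_atTop.comp (Real.tendsto_sqrt_atTop.comp h1))).mono_left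
    Nat.hyperfilter_le_atTop

private theorem fourth (x : ℝ) (hx : 0 ≤ x) : Real.sqrt (Real.sqrt x) ^ 4 = x := by
  rw [show (4 : ℕ) = 2 * 2 by norm_num, pow_mul, Real.sq_sqrt (Real.sqrt_nonneg _), Real.sq_sqrt hx]

private theorem mkHyp (C ε : ℝ) (hε : 0 < ε) (hε1 : ε < 1) (hC : 1 + ε ≤ C) (s0 : ℤˣ)
    (x : ℕ → ℝ) (hx : ∀ n : ℕ, (n : ℝ) ≤ x n) (F : ℕ → ℤ → ℤˣ)
    (hmul : ∀ n, ∀ a b : ℤ, a ≠ 0 → b ≠ 0 → F n (a * b) = F n a * F n b)
    (hW : ∀ n, ∀ z : ℤ, x n < z → (z : ℝ) ≤ x n + C * Real.sqrt (x n) → F n z = s0) :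
    Hyp ε s0 F (fun n => Real.sqrt (Real.sqrt (x n))) (hyperfilter ℕ) :=
  { hε := hε
    hε1 := hε1
    hmul := hmul
    hR := tendsto_R x hx
    hW := by
      intro n z h1 h2
      have hx0 : 0 ≤ x n := (Nat.cast_nonneg n).trans (hx n)
      rw [fourth _ hx0] at h1 h2
      rw [Real.sq_sqrt (Real.sqrt_nonneg _)] at h2
      apply hW n z h1
      have := mul_le_mul_of_nonneg_right hC (Real.sqrt_nonneg (x n))
      linarith }

private theorem exists_eps (C : ℝ) (hC : 1 < C) : ∃ ε : ℝ, 0 < ε ∧ ε < 1 ∧ 1 + ε ≤ C := by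
  refine ⟨min (C - 1) (1 / 2), lt_min (by linarith) (by norm_num), ?_, ?_⟩
  · have := min_le_right (C - 1) (1 / 2 : ℝ)
    linarith
  · have := min_le_left (C - 1) (1 / 2 : ℝ)
    linarith

/-- the value `1` -/
theorem exists_one (C : ℝ) (hC : 1 < C) : ∃ x0 : ℝ, ∀ x : ℝ, x0 ≤ x → ∀ f : ℤ → ℤˣ,
    (∀ a b : ℤ, a ≠ 0 → b ≠ 0 → f (a * b) = f a * f b) →
    ∃ m : ℤ, x < m ∧ (m : ℝ) ≤ x + C * Real.sqrt x ∧ f m = 1 := by
  obtain ⟨ε, hε, hε1, hεC⟩ := exists_eps C hC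
  obtain ⟨ρ, -, hρ⟩ := exists_scale ε hε hε1
  by_contra hcon
  push Not at hcon
  have h := fun n : ℕ => hcon n
  choose x hx f hf hm using h
  have H := mkHyp C ε hε hε1 hεC (-1) x hx f hf (by
    intro n z h1 h2
    rcases Int.units_eq_one_or (f n z) with h3 | h3
    · exact absurd h3 (hm n z h1 h2)
    · exact h3)
  have h1 := (hρ _ _ _ _ H).1
  exact absurd h1 (by decide)

private theorem change (f : ℤ → ℤˣ) (P Q : ℤ) (hPQ : P ≤ Q) (h : f P ≠ f Q) :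
    ∃ u, P ≤ u ∧ u < Q ∧ f (u + 1) ≠ f u := by
  by_contra hcon
  push Not at hcon
  apply h
  have : ∀ M, P ≤ M → M ≤ Q → f M = f P := by
    intro M hM
    induction M, hM using Int.leInduction with
    | base => intro _; rfl
    | succ M hM ih =>
      intro hMQ
      rw [hcon M hM (by omega)]
      exact ih (by omega)
  exact (this Q hPQ le_rfl).symm

/-- the value `-1` -/
theorem exists_neg (C : ℝ) (hC : 1 < C) (q : ℕ) (hq : 0 < q) : ∃ x0 : ℝ, ∀ x : ℝ, x0 ≤ x →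
    ∀ f : ℤ → ℤˣ, (∀ a b : ℤ, a ≠ 0 → b ≠ 0 → f (a * b) = f a * f b) → f q = -1 →
    ∃ m : ℤ, x < m ∧ (m : ℝ) ≤ x + C * Real.sqrt x ∧ f m = -1 := by
  obtain ⟨ε, hε, hε1, hεC⟩ := exists_eps C hC
  obtain ⟨ρ, hρ0, hρ⟩ := exists_scale ε hε hε1
  by_contra hcon
  push Not at hcon
  have h := fun n : ℕ => hcon n
  choose x hx f hf hfq hm using h
  have H := mkHyp C ε hε hε1 hεC 1 x hx f hf (by
    intro n z h1 h2
    rcases Int.units_eq_one_or (f n z) with h3 | h3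
    · exact h3
    · exact absurd h3 (hm n z h1 h2))
  obtain ⟨R, hR⟩ : ∃ R : ℕ → ℝ, R = fun n => Real.sqrt (Real.sqrt (x n)) := ⟨_, rfl⟩
  rw [← hR] at H
  obtain ⟨-, hconst⟩ := hρ _ _ _ _ H
  have hqr : (0 : ℝ) < q := by exact_mod_cast hq
  have hq1 : (1 : ℝ) ≤ q := by exact_mod_cast hq
  obtain ⟨c1, hc1⟩ : ∃ c1 : ℝ, c1 = 2 * (q : ℝ) * (Real.sqrt ρ + 1) := ⟨_, rfl⟩
  -- a change point in a short interval
  have hex : ∀ n, ∃ u : ℤ, 0 < R n → (ρ * R n ≤ u ∧ (u : ℝ) ≤ ρ * R n + c1 * Real.sqrt (R n) + q ∧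
      f n (u + 1) ≠ f n u) := by
    intro n
    by_cases hRn : 0 < R n
    swap
    · exact ⟨0, fun h => absurd h hRn⟩
    obtain ⟨w, hw⟩ : ∃ w : ℤ, w = ⌈Real.sqrt (ρ * R n)⌉ := ⟨_, rfl⟩
    obtain ⟨w', hw'⟩ : ∃ w' : ℤ, w' = ⌈Real.sqrt (ρ * R n / q)⌉ := ⟨_, rfl⟩
    have hρR : 0 < ρ * R n := by positivity
    have s1 : 0 < Real.sqrt (ρ * R n) := Real.sqrt_pos.2 hρR
    have s2 : 0 < Real.sqrt (ρ * R n / q) := Real.sqrt_pos.2 (by positivity)
    have s3 : Real.sqrt (ρ * R n) ^ 2 = ρ * R n := Real.sq_sqrt hρR.le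
    have s4 : Real.sqrt (ρ * R n / q) ^ 2 = ρ * R n / q := Real.sq_sqrt (by positivity)
    have s5 : Real.sqrt (ρ * R n / q) ≤ Real.sqrt (ρ * R n) := by
      apply Real.sqrt_le_sqrt
      rw [div_le_iff₀ hqr]
      nlinarith
    have s6 : Real.sqrt (ρ * R n) = Real.sqrt ρ * Real.sqrt (R n) := Real.sqrt_mul hρ0.le _
    have s7 : 0 ≤ Real.sqrt (R n) := Real.sqrt_nonneg _
    have s8 : 0 ≤ Real.sqrt ρ := Real.sqrt_nonneg _
    have w1 : Real.sqrt (ρ * R n) ≤ w := by rw [hw]; exact Int.le_ceil _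
    have w2 : (w : ℝ) < Real.sqrt (ρ * R n) + 1 := by rw [hw]; exact Int.ceil_lt_add_one _
    have w3 : Real.sqrt (ρ * R n / q) ≤ w' := by rw [hw']; exact Int.le_ceil _
    have w4 : (w' : ℝ) < Real.sqrt (ρ * R n / q) + 1 := by rw [hw']; exact Int.ceil_lt_add_one _
    have wne : w ≠ 0 := by
      intro h0
      rw [h0, Int.cast_zero] at w1
      linarith
    have wne' : w' ≠ 0 := by
      intro h0
      rw [h0, Int.cast_zero] at w3
      linarith
    have hqne : (q : ℤ) ≠ 0 := by exact_mod_cast hq.ne'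
    have fP : f n (w * w) = 1 := by
      rw [hf n w w wne wne, Int.units_mul_self]
    have fQ : f n (q * (w' * w')) = -1 := by
      rw [hf n q (w' * w') hqne (mul_ne_zero wne' wne'), hf n w' w' wne' wne', hfq n,
        Int.units_mul_self, mul_one]
    have P1 : ρ * R n ≤ ((w * w : ℤ) : ℝ) := by
      push_cast
      nlinarith
    have P2 : ((w * w : ℤ) : ℝ) ≤ ρ * R n + c1 * Real.sqrt (R n) + q := by
      push_cast
      have h1 : (w : ℝ) * w ≤ (Real.sqrt (ρ * R n) + 1) ^ 2 := by nlinarith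
      have h2 : (Real.sqrt (ρ * R n) + 1) ^ 2 = ρ * R n + 2 * (Real.sqrt ρ * Real.sqrt (R n)) + 1 := by
        rw [add_sq, s3, s6]
        ring
      have h3 : 2 * (Real.sqrt ρ * Real.sqrt (R n)) ≤ c1 * Real.sqrt (R n) := by
        rw [hc1]
        have h4 : 0 ≤ Real.sqrt ρ * Real.sqrt (R n) := by positivity
        nlinarith
      linarith
    have Q1 : ρ * R n ≤ ((q * (w' * w') : ℤ) : ℝ) := by
      push_cast
      have h1 : ρ * R n / q ≤ (w' : ℝ) * w' := by nlinarith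
      rw [div_le_iff₀ hqr] at h1
      linarith
    have Q2 : ((q * (w' * w') : ℤ) : ℝ) ≤ ρ * R n + c1 * Real.sqrt (R n) + q := by
      push_cast
      have h1 : (w' : ℝ) * w' ≤ (Real.sqrt (ρ * R n / q) + 1) ^ 2 := by nlinarith
      have h2 : (Real.sqrt (ρ * R n / q) + 1) ^ 2 ≤ ρ * R n / q + 2 * (Real.sqrt ρ * Real.sqrt (R n)) + 1 := by
        rw [add_sq, s4, ← s6]
        linarith
      have h3 : (q : ℝ) * ((w' : ℝ) * w') ≤ q * (ρ * R n / q + 2 * (Real.sqrt ρ * Real.sqrt (R n)) + 1) :=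
        mul_le_mul_of_nonneg_left (h1.trans h2) hqr.le
      have h4 : (q : ℝ) * (ρ * R n / q + 2 * (Real.sqrt ρ * Real.sqrt (R n)) + 1) =
          ρ * R n + 2 * q * (Real.sqrt ρ * Real.sqrt (R n)) + q := by
        field_simp
      have h5 : 2 * q * (Real.sqrt ρ * Real.sqrt (R n)) ≤ c1 * Real.sqrt (R n) := by
        rw [hc1]
        nlinarith
      linarith
    rcases le_total (w * w) ((q : ℤ) * (w' * w')) with hle | hle
    · obtain ⟨u, u1, u2, u3⟩ := change (f n) _ _ hle (by rw [fP, fQ]; decide)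
      refine ⟨u, fun _ => ⟨?_, ?_, u3⟩⟩
      · exact P1.trans (by exact_mod_cast u1)
      · exact (show (u : ℝ) ≤ _ by exact_mod_cast u2.le).trans Q2
    · obtain ⟨u, u1, u2, u3⟩ := change (f n) _ _ hle (by rw [fP, fQ]; decide)
      refine ⟨u, fun _ => ⟨?_, ?_, u3⟩⟩
      · exact Q1.trans (by exact_mod_cast u1)
      · exact (show (u : ℝ) ≤ _ by exact_mod_cast u2.le).trans P2
  choose u hu using hex
  have hut : Tendsto (fun n => (u n : ℝ) / R n) (hyperfilter ℕ : Filter ℕ) (𝓝 ρ) := by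
    have h1 : Tendsto (fun n => 1 / Real.sqrt (R n)) (hyperfilter ℕ : Filter ℕ) (𝓝 0) := by
      have := (Real.tendsto_sqrt_atTop.comp H.hR).const_div_atTop 1
      exact this
    have h2 : Tendsto (fun n => ρ + c1 * (1 / Real.sqrt (R n)) + q / R n)
        (hyperfilter ℕ : Filter ℕ) (𝓝 (ρ + c1 * 0 + 0)) :=
      ((h1.const_mul c1).const_add ρ).add (H.hinv q)
    rw [mul_zero, add_zero, add_zero] at h2
    refine tendsto_of_tendsto_of_tendsto_of_le_of_le' tendsto_const_nhds h2 ?_ ?_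
    · filter_upwards [H.Rpos 0] with n hn
      rw [le_div_iff₀ hn]
      exact (hu n hn).1
    · filter_upwards [H.Rpos 0] with n hn
      rw [div_le_iff₀ hn]
      have hs : 0 < Real.sqrt (R n) := Real.sqrt_pos.2 hn
      have hss : Real.sqrt (R n) * Real.sqrt (R n) = R n := Real.mul_self_sqrt hn.le
      have h3 : (ρ + c1 * (1 / Real.sqrt (R n)) + q / R n) * R n =
          ρ * R n + c1 * Real.sqrt (R n) + q := by
        have h4 : 1 / Real.sqrt (R n) * R n = Real.sqrt (R n) := by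
          rw [one_div, inv_mul_eq_iff_eq_mul₀ hs.ne', hss]
        have h5 : (q : ℝ) / R n * R n = q := div_mul_cancel₀ _ hn.ne'
        rw [add_mul, add_mul, h5, mul_assoc, h4]
      rw [h3]
      exact (hu n hn).2.1
  obtain ⟨n, hn1, hn2⟩ := ((hconst u hut).and (H.Rpos 0)).exists
  exact (hu n hn2).2.2 hn1

end Pool.Agent.Helper71.PQ
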